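import Pool.Agent.helper40.TW.SpecG
import Pool.Agent.helper30.LD.T4

/-!
# Project TW, block G: DET, detection of zeros by power sums
-/

set_option autoImplicit false

open Complex MeasureTheory Metric
open scoped ComplexConjugate ArithmeticFunction.vonMangoldt

namespace Pool.Agent.TWG

open Pool.Agent.helper6.LD (wt)
open Pool.Agent.helper85.BVP (ex)
open Pool.Agent.TW (Win Pw)

/-- `k t^(k-1) ≤ 2 t` -/
theorem DET_a (t : ℝ) (h0 : 0 ≤ t) (h1 : t ≤ 1 / 2) (k : ℕ) (hk : 2 ≤ k) : (k : ℝ) * t ^ (k - 1) ≤ 2 * t := by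
  induction k, hk using Nat.le_induction with
  | base => norm_num
  | succ k hk ih =>
    have h2 : k + 1 - 1 = (k - 1) + 1 := by omega
    rw [h2, pow_succ]
    have hk2 : (2 : ℝ) ≤ k := by exact_mod_cast hk
    have h3 : 0 ≤ t ^ (k - 1) := pow_nonneg h0 _
    have h4 : ((k + 1 : ℕ) : ℝ) * t ≤ k := by
      push_cast
      nlinarith
    calc ((k + 1 : ℕ) : ℝ) * (t ^ (k - 1) * t) = ((k + 1 : ℕ) : ℝ) * t * t ^ (k - 1) := by ring
      _ ≤ k * t ^ (k - 1) := mul_le_mul_of_nonneg_right h4 h3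
      _ ≤ 2 * t := ih

/-- `k³ t^(k-1) ≤ 8 t` -/
theorem DET_b (t : ℝ) (h0 : 0 ≤ t) (h1 : t ≤ 1 / 4) (k : ℕ) (hk : 2 ≤ k) : (k : ℝ) ^ 3 * t ^ (k - 1) ≤ 8 * t := by
  induction k, hk using Nat.le_induction with
  | base => norm_num
  | succ k hk ih =>
    have h2 : k + 1 - 1 = (k - 1) + 1 := by omega
    rw [h2, pow_succ]
    have hk2 : (2 : ℝ) ≤ k := by exact_mod_cast hk
    have h3 : 0 ≤ t ^ (k - 1) := pow_nonneg h0 _
    have h4 : ((k + 1 : ℕ) : ℝ) ^ 3 * t ≤ (k : ℝ) ^ 3 := by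
      push_cast
      have h5 : ((k : ℝ) + 1) ^ 3 * t ≤ ((k : ℝ) + 1) ^ 3 * (1 / 4) :=
        mul_le_mul_of_nonneg_left h1 (by positivity)
      nlinarith [mul_nonneg (sub_nonneg.2 hk2) (sq_nonneg (k : ℝ)), sq_nonneg ((k : ℝ) - 2)]
    calc ((k + 1 : ℕ) : ℝ) ^ 3 * (t ^ (k - 1) * t) = ((k + 1 : ℕ) : ℝ) ^ 3 * t * t ^ (k - 1) := by ring
      _ ≤ (k : ℝ) ^ 3 * t ^ (k - 1) := mul_le_mul_of_nonneg_right h4 h3
      _ ≤ 8 * t := ih

/-- the distance of the points `1 + r + iv` and `1 + iv` -/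
theorem DET_c (r v : ℝ) (hr : 0 ≤ r) : ‖sp r v - sp 0 v‖ = r := by
  have h : sp r v - sp 0 v = ((r : ℝ) : ℂ) := by
    unfold sp
    push_cast
    ring
  rw [h, Complex.norm_real, Real.norm_of_nonneg hr]

theorem DET (hZFI : ZFI_stmt) (hEXP : EXP_stmt) (hLCT : LCT_stmt) (hTLS : TLS_stmt) : DET_stmt := by
  classical
  obtain ⟨C1, M1, hC1, hM1, hL⟩ := hLCT
  obtain ⟨C2, M2, hC2, hM2, hE⟩ := hEXP (1 / 16) (by norm_num) (by norm_num)
  obtain ⟨C, hCdef⟩ : ∃ C : ℝ, C = max C1 C2 := ⟨_, rfl⟩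
  have hCC1 : C1 ≤ C := hCdef ▸ le_max_left _ _
  have hCC2 : C2 ≤ C := hCdef ▸ le_max_right _ _
  have hC : 1 ≤ C := hC1.trans hCC1
  obtain ⟨A, hA⟩ : ∃ A : ℝ, A = 6400 * C + 40 := ⟨_, rfl⟩
  have hA1 : 6440 ≤ A := by rw [hA]; linarith
  obtain ⟨r₀, hr₀⟩ : ∃ r₀ : ℝ, r₀ = 1 / (10 ^ 6 * C * A) := ⟨_, rfl⟩
  have hCA : 1 ≤ C * A := by nlinarith
  have hr0pos : 0 < r₀ := by rw [hr₀]; positivity
  have hr0eq : r₀ * (10 ^ 6 * C * A) = 1 := by
    rw [hr₀]; field_simp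
  have hr0A : A * r₀ ≤ 1 / 10 ^ 6 := by
    have h1 : A * r₀ * 10 ^ 6 * C = 1 := by rw [← hr0eq]; ring
    have h2 : 0 ≤ A * r₀ := by positivity
    nlinarith
  have hr0C : C * r₀ ≤ 1 / 10 ^ 9 := by
    have h1 : C * r₀ * 10 ^ 6 * A = 1 := by rw [← hr0eq]; ring
    have h2 : 0 ≤ C * r₀ := by positivity
    nlinarith
  have hr064 : r₀ ≤ 1 / 10 ^ 9 := by nlinarith
  refine ⟨4 * C * (A + 1) + 2, r₀, max M1 M2, by nlinarith, hr0pos, hr064.trans (by norm_num),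
    hM1.trans (le_max_left _ _), ?_⟩
  intro M hM q χ hχ r v K hr1 hr2 hv hK hnz
  have hMM1 : M1 ≤ M := (le_max_left _ _).trans hM
  have hMM2 : M2 ≤ M := (le_max_right _ _).trans hM
  obtain ⟨ℓ, hℓ⟩ : ∃ ℓ : ℝ, ℓ = Real.log M := ⟨_, rfl⟩
  have hM3 : (3 : ℝ) ≤ M := by exact_mod_cast hM1.trans hMM1
  have hℓ1 : 1 ≤ ℓ := by
    rw [hℓ, Real.le_log_iff_exp_le (by linarith)]
    exact (Real.exp_one_lt_d9.le.trans (by norm_num)).trans hM3
  rw [← hℓ] at hr1 hK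
  have hℓ0 : 0 < ℓ := by linarith
  have hr : 0 < r := lt_of_lt_of_le (by positivity) hr1
  have hrℓ : 1 ≤ r * ℓ := by
    rw [div_le_iff₀ hℓ0] at hr1
    exact hr1
  have hK1 : r * ℓ ≤ K := by
    refine le_trans ?_ hK
    have : 1 ≤ 4 * C * (A + 1) + 2 := by nlinarith
    nlinarith
  have hK2 : 2 ≤ K := by
    have h1 : (2 : ℝ) ≤ K := by
      refine le_trans ?_ hK
      have : 2 ≤ 4 * C * (A + 1) + 2 := by nlinarith
      nlinarith
    exact_mod_cast h1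
  have hAr : A * r ≤ 1 / 10 ^ 6 := by
    have : A * r ≤ A * r₀ := mul_le_mul_of_nonneg_left hr2 (by linarith)
    linarith
  have hAr0 : 0 < A * r := by positivity
  have hrAr : r ≤ A * r := by nlinarith
  have hrsmall : r ≤ 1 / 10 ^ 9 := hr2.trans hr064
  obtain ⟨hq2, hqM, hne⟩ := hχ
  obtain ⟨-, -, -, hZmem, hZord, hmono, -⟩ := hZFI q χ hq2 hne
  obtain ⟨s, hs⟩ : ∃ s : ℂ, s = sp r v := ⟨_, rfl⟩
  obtain ⟨Z, hZ⟩ : ∃ Z : Finset ℂ, Z = ZS χ (closedBall s (1 / 16)) := ⟨_, rfl⟩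
  have hZm : ∀ ρ, ρ ∈ Z ↔ ρ ∈ closedBall s (1 / 16) ∧ LL χ ρ = 0 := by
    intro ρ
    rw [hZ]
    exact hZmem _ isBounded_closedBall ρ
  -- a zero close to `1 + iv`
  have hnz' : (ZS χ (closedBall (sp 0 v) r)).Nonempty := by
    rw [Finset.nonempty_iff_ne_empty]
    intro h
    rw [nz, h, Finset.sum_empty] at hnz
    exact lt_irrefl _ hnz
  obtain ⟨ρ0, hρ0⟩ := hnz'
  rw [hZmem _ isBounded_closedBall ρ0] at hρ0
  obtain ⟨hρ0b, hρ0z⟩ := hρ0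
  have hdist : ∀ ρ : ℂ, ‖s - ρ‖ ≤ r + ‖ρ - sp 0 v‖ := by
    intro ρ
    have h1 : s - ρ = (s - sp 0 v) - (ρ - sp 0 v) := by ring
    rw [h1]
    refine (norm_sub_le _ _).trans ?_
    rw [hs, DET_c r v hr.le]
  have hdist' : ∀ ρ : ℂ, ‖ρ - sp 0 v‖ ≤ r + ‖s - ρ‖ := by
    intro ρ
    have h1 : ρ - sp 0 v = (s - sp 0 v) - (s - ρ) := by ring
    rw [h1]
    refine (norm_sub_le _ _).trans ?_
    rw [hs, DET_c r v hr.le]
  have hρ0s : ‖s - ρ0‖ ≤ 2 * r := by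
    have h1 := hdist ρ0
    rw [mem_closedBall_iff_norm] at hρ0b
    linarith
  obtain ⟨S, hS⟩ : ∃ S : Finset ℂ, S = Z.filter (fun ρ => ‖s - ρ‖ ≤ A * r) := ⟨_, rfl⟩
  have hρ0S : ρ0 ∈ S := by
    rw [hS, Finset.mem_filter, hZm]
    refine ⟨⟨?_, hρ0z⟩, ?_⟩
    · rw [mem_closedBall_iff_norm, norm_sub_rev]
      linarith
    · nlinarith
  -- the number of the near zeros
  have hcount : ∀ x : ℝ, A * r ≤ x → x ≤ 1 / 16 →
      ∑ ρ ∈ Z.filter (fun ρ => ‖s - ρ‖ ≤ x), (mz χ ρ : ℝ) ≤ C * ((x + r) * ℓ) := by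
    intro x hx1 hx2
    have h1 : ∑ ρ ∈ Z.filter (fun ρ => ‖s - ρ‖ ≤ x), (mz χ ρ : ℝ) ≤ nz χ (closedBall (sp 0 v) (x + r)) := by
      unfold nz
      refine Finset.sum_le_sum_of_subset_of_nonneg ?_ (fun _ _ _ => Nat.cast_nonneg _)
      intro ρ hρ
      rw [Finset.mem_filter, hZm] at hρ
      rw [hZmem _ isBounded_closedBall ρ]
      refine ⟨?_, hρ.1.2⟩
      rw [mem_closedBall_iff_norm]
      have := hdist' ρ
      linarith [hρ.2]
    refine h1.trans ?_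
    have h2 := hL M hMM1 q χ ⟨hq2, hqM, hne⟩ (x + r) v (by
      rw [← hℓ]
      linarith) (by linarith) hv
    rw [← hℓ] at h2
    refine h2.trans ?_
    have h3 : 0 ≤ (x + r) * ℓ := by
      have : 0 ≤ x + r := by linarith
      positivity
    exact mul_le_mul_of_nonneg_right hCC1 h3
  have hcard : 4 * (S.card : ℝ) ≤ 1 * K := by
    have h1 := hcount (A * r) le_rfl (by linarith)
    rw [← hS] at h1
    have h2 : (S.card : ℝ) ≤ ∑ ρ ∈ S, (mz χ ρ : ℝ) := by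
      rw [Finset.card_eq_sum_ones]
      push_cast
      refine Finset.sum_le_sum fun ρ hρ => ?_
      rw [hS, Finset.mem_filter, hZm] at hρ
      exact_mod_cast (hZord ρ hρ.1.2).1
    rw [one_mul]
    refine le_trans ?_ hK
    calc 4 * (S.card : ℝ) ≤ 4 * (C * ((A * r + r) * ℓ)) := by linarith
      _ = 4 * C * (A + 1) * (r * ℓ) := by ring
      _ ≤ (4 * C * (A + 1) + 2) * (r * ℓ) := by
          have : 0 ≤ r * ℓ := by linarith
          nlinarith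
  have hturan := Pool.Agent.helper6.LD.turan S (fun ρ => (mz χ ρ : ℝ)) (by
      intro ρ hρ
      rw [hS, Finset.mem_filter, hZm] at hρ
      exact_mod_cast (hZord ρ hρ.1.2).1) (fun ρ => (s - ρ)⁻¹) K (δ := 1) one_pos le_rfl hcard hρ0S
  obtain ⟨k, hk1, hk2, hk3⟩ := hturan
  have hk2' : k ≤ 2 * K := by
    have : (k : ℝ) ≤ 2 * (K : ℝ) := by linarith
    exact_mod_cast this
  refine ⟨k, hk1, hk2', ?_⟩
  have hk22 : 2 ≤ k := hK2.trans hk1
  have hkR : (K : ℝ) ≤ k := by exact_mod_cast hk1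
  have hk0 : (0 : ℝ) ≤ k := Nat.cast_nonneg k
  have hrk : r * ℓ ≤ k := hK1.trans hkR
  have hℓk : ℓ ≤ k / r := by
    rw [le_div_iff₀ hr]
    linarith
  obtain ⟨T, hT⟩ : ∃ T : ℝ, T = ((10 * r) ^ k)⁻¹ := ⟨_, rfl⟩
  have hT0 : 0 < T := by rw [hT]; positivity
  -- main term
  have hρ0ne : s - ρ0 ≠ 0 := by
    intro h
    have h1 : (s - ρ0).re = 0 := by rw [h]; simp
    have h2 : s.re = 1 + r := by rw [hs]; simp [sp]
    have h3 := (hZord ρ0 hρ0z).2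
    rw [Complex.sub_re] at h1
    linarith
  have hmain : T ≤ ‖∑ ρ ∈ S, ((mz χ ρ : ℝ) : ℂ) * ((s - ρ)⁻¹) ^ k‖ := by
    refine le_trans ?_ hk3
    have h1 : (1 / (2 * r)) ^ k ≤ ‖(s - ρ0)⁻¹‖ ^ k := by
      refine pow_le_pow_left₀ (by positivity) ?_ _
      rw [norm_inv, one_div]
      exact inv_anti₀ (norm_pos_iff.2 hρ0ne) hρ0s
    have h2 : ((1 : ℝ) / 5) ^ k ≤ (1 / 500) ^ S.card := by
      have h3 : 4 * S.card ≤ k := by
        have : (4 * S.card : ℝ) ≤ K := by linarith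
        have h5 : 4 * S.card ≤ K := by exact_mod_cast this
        omega
      calc ((1 : ℝ) / 5) ^ k ≤ (1 / 5) ^ (4 * S.card) :=
            pow_le_pow_of_le_one (by norm_num) (by norm_num) h3
        _ = ((1 / 5) ^ 4) ^ S.card := by rw [pow_mul]
        _ ≤ (1 / 500) ^ S.card := pow_le_pow_left₀ (by norm_num) (by norm_num) _
    calc T = (1 / 5) ^ k * (1 / (2 * r)) ^ k := by
          rw [hT, ← mul_pow, ← inv_pow]
          congr 1
          field_simp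
          norm_num
      _ ≤ (1 / 500) ^ S.card * ‖(s - ρ0)⁻¹‖ ^ k := by gcongr
  -- the tail
  have hsplit : ∑ ρ ∈ Z, (mz χ ρ : ℂ) * ((s - ρ) ^ k)⁻¹ =
      ∑ ρ ∈ S, ((mz χ ρ : ℝ) : ℂ) * ((s - ρ)⁻¹) ^ k +
      ∑ ρ ∈ Z.filter (fun ρ => ¬ ‖s - ρ‖ ≤ A * r), (mz χ ρ : ℂ) * ((s - ρ) ^ k)⁻¹ := by
    rw [hS, ← Finset.sum_filter_add_sum_filter_not Z (fun ρ => ‖s - ρ‖ ≤ A * r)]
    congr 1
    refine Finset.sum_congr rfl fun ρ _ => ?_
    rw [inv_pow]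
    push_cast
    rfl
  have htail : ‖∑ ρ ∈ Z.filter (fun ρ => ¬ ‖s - ρ‖ ≤ A * r), (mz χ ρ : ℂ) * ((s - ρ) ^ k)⁻¹‖ ≤ T / 4 := by
    have h1 : ‖∑ ρ ∈ Z.filter (fun ρ => ¬ ‖s - ρ‖ ≤ A * r), (mz χ ρ : ℂ) * ((s - ρ) ^ k)⁻¹‖ ≤
        ∑ ρ ∈ Z.filter (fun ρ => ¬ ‖s - ρ‖ ≤ A * r), (mz χ ρ : ℝ) * (‖s - ρ‖ ^ k)⁻¹ := by
      refine (norm_sum_le _ _).trans (le_of_eq ?_)
      refine Finset.sum_congr rfl fun ρ _ => ?_
      rw [norm_mul, norm_inv, norm_pow, Complex.norm_natCast]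
    have h2 := hTLS ℂ (Z.filter (fun ρ => ¬ ‖s - ρ‖ ≤ A * r)) (fun ρ => ‖s - ρ‖) (fun ρ => (mz χ ρ : ℝ))
      (A * r) (2 * C * ℓ) k hk22 hAr0 (by positivity) (by
        intro ρ hρ
        rw [Finset.mem_filter] at hρ
        exact ⟨Nat.cast_nonneg _, not_le.1 hρ.2⟩) (by
        intro x hx
        have hsub : ∀ y : ℝ, ∑ ρ ∈ (Z.filter (fun ρ => ¬ ‖s - ρ‖ ≤ A * r)).filter (fun ρ => ‖s - ρ‖ ≤ x),
            (mz χ ρ : ℝ) ≤ ∑ ρ ∈ Z.filter (fun ρ => ‖s - ρ‖ ≤ min x (1 / 16)), (mz χ ρ : ℝ) := by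
          intro _
          refine Finset.sum_le_sum_of_subset_of_nonneg ?_ (fun _ _ _ => Nat.cast_nonneg _)
          intro ρ hρ
          rw [Finset.mem_filter, Finset.mem_filter] at hρ
          rw [Finset.mem_filter]
          refine ⟨hρ.1.1, le_min hρ.2 ?_⟩
          have h5 := ((hZm ρ).1 hρ.1.1).1
          rw [mem_closedBall_iff_norm, norm_sub_rev] at h5
          exact h5
        refine (hsub x).trans ?_
        have h6 := hcount (min x (1 / 16)) (le_min hx (by linarith)) (min_le_right _ _)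
        refine h6.trans ?_
        have h7 : min x (1 / 16) ≤ x := min_le_left _ _
        have h8 : min x (1 / 16) + r ≤ 2 * x := by linarith
        calc C * ((min x (1 / 16) + r) * ℓ) ≤ C * (2 * x * ℓ) := by gcongr
          _ = 2 * C * ℓ * x := by ring)
    refine h1.trans (h2.trans ?_)
    -- `4 (2 C ℓ) (A r) (A r)^(-k) ≤ T / 4`
    have h3 : ((A * r) ^ k)⁻¹ = T * (10 / A) ^ k := by
      rw [hT, ← inv_pow, ← inv_pow, ← mul_pow]
      congr 1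
      field_simp
    have h4 : (k : ℝ) * (10 / A) ^ (k - 1) ≤ 2 * (10 / A) := by
      refine DET_a _ (by positivity) ?_ k hk22
      rw [div_le_iff₀ (by linarith)]
      linarith
    have h5 : (10 / A) ^ k = (10 / A) * (10 / A) ^ (k - 1) := by
      rw [← pow_succ']
      congr 1
      omega
    have h6 : 0 ≤ (10 / A) ^ (k - 1) := by positivity
    calc 4 * (2 * C * ℓ) * (A * r) * ((A * r) ^ k)⁻¹
        = 8 * C * A * (r * ℓ) * (T * ((10 / A) * (10 / A) ^ (k - 1))) := by rw [h3, h5]; ring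
      _ ≤ 8 * C * A * k * (T * ((10 / A) * (10 / A) ^ (k - 1))) := by
          refine mul_le_mul_of_nonneg_right ?_ (by positivity)
          exact mul_le_mul_of_nonneg_left hrk (by positivity)
      _ = 80 * C * T * (k * (10 / A) ^ (k - 1)) := by
          field_simp
          ring
      _ ≤ 80 * C * T * (2 * (10 / A)) := mul_le_mul_of_nonneg_left h4 (by positivity)
      _ = T * (1600 * C / A) := by ring
      _ ≤ T * (1 / 4) := by
          refine mul_le_mul_of_nonneg_left ?_ hT0.le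
          rw [div_le_iff₀ (by linarith), hA]
          linarith
      _ = T / 4 := by ring
  -- the error of the expansion
  have hexp := hE M hMM2 q χ ⟨hq2, hqM, hne⟩ r v k (by
    rw [← hℓ]
    refine le_trans ?_ hr1
    exact one_div_le_one_div_of_le hℓ0 (by nlinarith)) (by linarith) hv (by omega)
  rw [← hs, ← hZ, ← hℓ, hsplit] at hexp
  have herr : C2 * ℓ * (k : ℝ) ^ 2 * ((1 / 16 : ℝ) ^ k)⁻¹ ≤ T / 4 := by
    have h3 : ((1 / 16 : ℝ) ^ k)⁻¹ = T * (160 * r) ^ k := by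
      rw [hT, ← inv_pow, ← inv_pow, ← mul_pow]
      congr 1
      field_simp
      norm_num
    have h5 : (160 * r) ^ k = (160 * r) * (160 * r) ^ (k - 1) := by
      rw [← pow_succ']
      congr 1
      omega
    have h4 : (k : ℝ) ^ 3 * (160 * r) ^ (k - 1) ≤ 8 * (160 * r) := by
      refine DET_b _ (by positivity) ?_ k hk22
      linarith
    calc C2 * ℓ * (k : ℝ) ^ 2 * ((1 / 16 : ℝ) ^ k)⁻¹
        ≤ C * (k / r) * (k : ℝ) ^ 2 * ((1 / 16 : ℝ) ^ k)⁻¹ := by gcongr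
      _ = 160 * C * T * ((k : ℝ) ^ 3 * (160 * r) ^ (k - 1)) := by
          rw [h3, h5]
          field_simp
      _ ≤ 160 * C * T * (8 * (160 * r)) := mul_le_mul_of_nonneg_left h4 (by positivity)
      _ = T * (204800 * (C * r)) := by ring
      _ ≤ T * (1 / 4) := by
          refine mul_le_mul_of_nonneg_left ?_ hT0.le
          have h6 : C * r ≤ C * r₀ := mul_le_mul_of_nonneg_left hr2 (by linarith)
          linarith
      _ = T / 4 := by ring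
  rw [← hT]
  obtain ⟨a, ha⟩ : ∃ a : ℂ, a = ∑ ρ ∈ S, ((mz χ ρ : ℝ) : ℂ) * ((s - ρ)⁻¹) ^ k := ⟨_, rfl⟩
  obtain ⟨b, hb⟩ : ∃ b : ℂ, b = ∑ ρ ∈ Z.filter (fun ρ => ¬ ‖s - ρ‖ ≤ A * r), (mz χ ρ : ℂ) * ((s - ρ) ^ k)⁻¹ := ⟨_, rfl⟩
  rw [← ha] at hmain hexp
  rw [← hb] at htail hexp
  have hfin : ‖a‖ ≤ ‖PP χ k r v + (a + b)‖ + ‖PP χ k r v‖ + ‖b‖ := by
    have h1 : a = (PP χ k r v + (a + b)) - PP χ k r v - b := by ring
    calc ‖a‖ = ‖(PP χ k r v + (a + b)) - PP χ k r v - b‖ := by rw [← h1]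
      _ ≤ ‖(PP χ k r v + (a + b)) - PP χ k r v‖ + ‖b‖ := norm_sub_le _ _
      _ ≤ ‖PP χ k r v + (a + b)‖ + ‖PP χ k r v‖ + ‖b‖ := by
          have := norm_sub_le (PP χ k r v + (a + b)) (PP χ k r v)
          linarith
  linarith

end Pool.Agent.TWG
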