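import Pool.Agent.helper40.TW.SpecG
import Pool.Agent.helper85.MT.Large

/-!
# Project TW, block G: DGS, the sum over the zeros of the good characters
-/

set_option autoImplicit false

open Complex MeasureTheory Metric
open scoped ComplexConjugate ArithmeticFunction.vonMangoldt

namespace Pool.Agent.TWG

open Pool.Agent.helper6.LD (wt)
open Pool.Agent.helper85.BVP (ex)
open Pool.Agent.TW (Win Pw)

theorem DGS_bdd (α T : ℝ) : Bornology.IsBounded (bx α T) := by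
  rw [isBounded_iff_forall_norm_le]
  refine ⟨|1 - α| + 1 + |T|, fun z hz => ?_⟩
  obtain ⟨h1, h2, h3⟩ := hz
  refine (Complex.norm_le_abs_re_add_abs_im z).trans ?_
  have h4 : |z.re| ≤ |1 - α| + 1 := by
    rw [abs_le]
    have := neg_abs_le (1 - α)
    have := abs_nonneg (1 - α)
    constructor <;> linarith
  have h5 : |z.im| ≤ |T| := h3.trans (le_abs_self T)
  linarith

theorem DGS_pow (x : ℝ) (h0 : 0 ≤ x) (h1 : x ≤ 1 / 8) (K : ℕ) :
    ((1 + 16 * x) ^ K)⁻¹ ≤ Real.exp (-(8 * x * K)) := by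
  have a1 := (abs_le.1 (Real.abs_exp_sub_one_sub_id_le (x := 8 * x) (by rw [abs_of_nonneg (by linarith)]; linarith))).2
  have a2 : Real.exp (8 * x) ≤ 1 + 16 * x := by nlinarith
  rw [Real.exp_neg]
  refine inv_anti₀ (Real.exp_pos _) ?_
  have a3 : Real.exp (8 * x * K) = Real.exp (8 * x) ^ K := by
    rw [← Real.exp_nat_mul]
    congr 1
    ring
  rw [a3]
  exact pow_le_pow_left₀ (Real.exp_pos _).le a2 K

theorem DGS (hZFI : ZFI_stmt) (hDEN : DEN_stmt) (hZFR : ZFR_stmt) : DGS_stmt := by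
  classical
  intro c₀ η hc₀ hη
  obtain ⟨c, M1, hc, hM1, hF⟩ := hZFR c₀ hc₀
  obtain ⟨C, C', M2, hC, hC', hM2, hD⟩ := hDEN
  obtain ⟨κ, hκ⟩ : ∃ κ : ℝ, κ = max 1 (max ((C' + 1) / 4) (Real.log (2 * C * Real.exp C' / η) / (4 * c))) := ⟨_, rfl⟩
  have hκ1 : 1 ≤ κ := hκ ▸ le_max_left _ _
  have hκ2 : (C' + 1) / 4 ≤ κ := hκ ▸ ((le_max_left _ _).trans (le_max_right _ _))
  have hκ3 : Real.log (2 * C * Real.exp C' / η) / (4 * c) ≤ κ := hκ ▸ ((le_max_right _ _).trans (le_max_right _ _))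
  refine ⟨κ, max M1 M2, hκ1, hM1.trans (le_max_left _ _), ?_⟩
  intro M hM K hK
  have hMM1 : M1 ≤ M := (le_max_left _ _).trans hM
  have hMM2 : M2 ≤ M := (le_max_right _ _).trans hM
  obtain ⟨ℓ, hℓ⟩ : ∃ ℓ : ℝ, ℓ = Real.log M := ⟨_, rfl⟩
  have hM3 : (3 : ℝ) ≤ M := by exact_mod_cast hM1.trans hMM1
  have hℓ1 : 1 ≤ ℓ := by
    rw [hℓ, Real.le_log_iff_exp_le (by linarith)]
    exact (Real.exp_one_lt_d9.le.trans (by norm_num)).trans hM3
  have hℓ0 : 0 < ℓ := by linarith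
  rw [← hℓ] at hK
  obtain ⟨J, hJ⟩ : ∃ J : ℕ, J = ⌊ℓ⌋₊ := ⟨_, rfl⟩
  obtain ⟨T, hT⟩ : ∃ T : ℝ, T = (M : ℝ) ^ 6 := ⟨_, rfl⟩
  -- one zero
  have hone : ∀ q ∈ Finset.Icc 2 M, ∀ χ ∈ GC c₀ q, ∀ ρ ∈ ZS χ (bx (1 / 8) T),
      (mz χ ρ : ℝ) * ((1 + 16 * (1 - ρ.re)) ^ K)⁻¹ ≤
      ∑ j ∈ Finset.range (J + 1), Real.exp (-(4 * κ * c)) * Real.exp (-(4 * κ * j)) *
        (if (1 - ρ.re) * ℓ ≤ j + 1 then (mz χ ρ : ℝ) else 0) := by
    intro q hq χ hχ ρ hρ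
    rw [Finset.mem_Icc] at hq
    rw [GC, Finset.mem_filter] at hχ
    have hne : χ ≠ 1 := Pool.Agent.helper85.MT.prim_ne_one hq.1 hχ.2.1
    obtain ⟨-, -, -, hZmem, hZord, -, -⟩ := hZFI q χ hq.1 hne
    rw [hZmem _ (DGS_bdd _ _) ρ] at hρ
    obtain ⟨⟨h1, h2, h3⟩, h4⟩ := hρ
    obtain ⟨x, hx⟩ : ∃ x : ℝ, x = 1 - ρ.re := ⟨_, rfl⟩
    have hx8 : x ≤ 1 / 8 := by linarith
    have hxc : c ≤ x * ℓ := by
      have h5 := hF M hMM1 q χ ⟨hq.1, hq.2, hne⟩ hχ.2.2 ρ h4 (by rw [← hT]; exact h3)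
      rw [← hℓ] at h5
      have h6 : c / ℓ ≤ x := by linarith
      rwa [div_le_iff₀ hℓ0] at h6
    have hx0 : 0 ≤ x := by
      by_contra h
      push Not at h
      nlinarith
    rw [← hx]
    have hm0 : (0 : ℝ) ≤ mz χ ρ := Nat.cast_nonneg _
    have hb1 : ((1 + 16 * x) ^ K)⁻¹ ≤ Real.exp (-(4 * κ * c)) * Real.exp (-(4 * κ * (x * ℓ))) := by
      refine (DGS_pow x hx0 hx8 K).trans ?_
      rw [← Real.exp_add]
      refine Real.exp_le_exp.2 ?_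
      have h7 : 8 * x * (κ * ℓ) ≤ 8 * x * K := mul_le_mul_of_nonneg_left hK (by positivity)
      have h8 : 4 * κ * c ≤ 4 * κ * (x * ℓ) := mul_le_mul_of_nonneg_left hxc (by positivity)
      nlinarith
    have hj0 : ⌊x * ℓ⌋₊ ∈ Finset.range (J + 1) := by
      rw [Finset.mem_range, hJ, Nat.lt_succ_iff]
      refine Nat.floor_mono ?_
      nlinarith
    have hb2 : (x * ℓ) ≤ (⌊x * ℓ⌋₊ : ℝ) + 1 := (Nat.lt_floor_add_one _).le
    have hb3 : (⌊x * ℓ⌋₊ : ℝ) ≤ x * ℓ := Nat.floor_le (by positivity)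
    have hb4 : Real.exp (-(4 * κ * (x * ℓ))) ≤ Real.exp (-(4 * κ * (⌊x * ℓ⌋₊ : ℝ))) := by
      refine Real.exp_le_exp.2 ?_
      have : 4 * κ * (⌊x * ℓ⌋₊ : ℝ) ≤ 4 * κ * (x * ℓ) := mul_le_mul_of_nonneg_left hb3 (by positivity)
      linarith
    refine le_trans ?_ (Finset.single_le_sum (f := fun j : ℕ => Real.exp (-(4 * κ * c)) * Real.exp (-(4 * κ * j)) *
        (if x * ℓ ≤ j + 1 then (mz χ ρ : ℝ) else 0)) (fun j _ => by positivity) hj0)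
    rw [if_pos hb2]
    calc (mz χ ρ : ℝ) * ((1 + 16 * x) ^ K)⁻¹
        ≤ (mz χ ρ : ℝ) * (Real.exp (-(4 * κ * c)) * Real.exp (-(4 * κ * (⌊x * ℓ⌋₊ : ℝ)))) := by
          refine mul_le_mul_of_nonneg_left (hb1.trans ?_) hm0
          exact mul_le_mul_of_nonneg_left hb4 (Real.exp_pos _).le
      _ = _ := by ring
  rw [← hT]
  have hsum1 : ∑ q ∈ Finset.Icc 2 M, ∑ χ ∈ GC c₀ q, ∑ ρ ∈ ZS χ (bx (1 / 8) T),
      (mz χ ρ : ℝ) * ((1 + 16 * (1 - ρ.re)) ^ K)⁻¹ ≤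
      ∑ j ∈ Finset.range (J + 1), Real.exp (-(4 * κ * c)) * Real.exp (-(4 * κ * j)) *
        ∑ q ∈ Finset.Icc 2 M, ∑ χ ∈ GC c₀ q, ∑ ρ ∈ ZS χ (bx (1 / 8) T),
          (if (1 - ρ.re) * ℓ ≤ j + 1 then (mz χ ρ : ℝ) else 0) := by
    have h1 : ∑ q ∈ Finset.Icc 2 M, ∑ χ ∈ GC c₀ q, ∑ ρ ∈ ZS χ (bx (1 / 8) T),
        (mz χ ρ : ℝ) * ((1 + 16 * (1 - ρ.re)) ^ K)⁻¹ ≤
        ∑ q ∈ Finset.Icc 2 M, ∑ χ ∈ GC c₀ q, ∑ ρ ∈ ZS χ (bx (1 / 8) T), ∑ j ∈ Finset.range (J + 1),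
          Real.exp (-(4 * κ * c)) * Real.exp (-(4 * κ * j)) *
          (if (1 - ρ.re) * ℓ ≤ j + 1 then (mz χ ρ : ℝ) else 0) :=
      Finset.sum_le_sum fun q hq => Finset.sum_le_sum fun χ hχ => Finset.sum_le_sum fun ρ hρ => hone q hq χ hχ ρ hρ
    refine h1.trans (le_of_eq ?_)
    simp only [Finset.mul_sum]
    have h2 : ∀ q : ℕ, ∑ χ ∈ GC c₀ q, ∑ ρ ∈ ZS χ (bx (1 / 8) T), ∑ j ∈ Finset.range (J + 1),
          Real.exp (-(4 * κ * c)) * Real.exp (-(4 * κ * j)) *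
          (if (1 - ρ.re) * ℓ ≤ j + 1 then (mz χ ρ : ℝ) else 0) =
        ∑ j ∈ Finset.range (J + 1), ∑ χ ∈ GC c₀ q, ∑ ρ ∈ ZS χ (bx (1 / 8) T),
          Real.exp (-(4 * κ * c)) * Real.exp (-(4 * κ * j)) *
          (if (1 - ρ.re) * ℓ ≤ j + 1 then (mz χ ρ : ℝ) else 0) := by
      intro q
      rw [Finset.sum_comm]
      refine Finset.sum_congr rfl fun χ _ => ?_
      rw [Finset.sum_comm]
    rw [Finset.sum_congr rfl fun q _ => h2 q, Finset.sum_comm]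
  -- the inner sums
  have hin : ∀ j ∈ Finset.range (J + 1), ∑ q ∈ Finset.Icc 2 M, ∑ χ ∈ GC c₀ q, ∑ ρ ∈ ZS χ (bx (1 / 8) T),
          (if (1 - ρ.re) * ℓ ≤ j + 1 then (mz χ ρ : ℝ) else 0) ≤ C * Real.exp (C' * (j + 1)) := by
    intro j _
    obtain ⟨α, hα⟩ : ∃ α : ℝ, α = min (((j : ℝ) + 1) / ℓ) (1 / 8) := ⟨_, rfl⟩
    have hα0 : 0 ≤ α := by rw [hα]; positivity
    have hα8 : α ≤ 1 / 8 := hα ▸ min_le_right _ _
    have hαj : α * ℓ ≤ (j : ℝ) + 1 := by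
      rw [← le_div_iff₀ hℓ0, hα]
      exact min_le_left _ _
    have h1 := hD M hMM2 α hα0 hα8
    rw [← hT, ← hℓ] at h1
    have h2 : ∑ q ∈ Finset.Icc 2 M, ∑ χ ∈ GC c₀ q, ∑ ρ ∈ ZS χ (bx (1 / 8) T),
          (if (1 - ρ.re) * ℓ ≤ j + 1 then (mz χ ρ : ℝ) else 0) ≤
        ∑ q ∈ Finset.Icc 2 M, ∑ χ ∈ PC q, nz χ (bx α T) := by
      refine Finset.sum_le_sum fun q hq => ?_
      rw [Finset.mem_Icc] at hq
      have h3 : ∑ χ ∈ GC c₀ q, ∑ ρ ∈ ZS χ (bx (1 / 8) T), (if (1 - ρ.re) * ℓ ≤ j + 1 then (mz χ ρ : ℝ) else 0) ≤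
          ∑ χ ∈ GC c₀ q, nz χ (bx α T) := by
        refine Finset.sum_le_sum fun χ hχ => ?_
        rw [GC, Finset.mem_filter] at hχ
        have hne : χ ≠ 1 := Pool.Agent.helper85.MT.prim_ne_one hq.1 hχ.2.1
        obtain ⟨-, -, -, hZmem, hZord, -, -⟩ := hZFI q χ hq.1 hne
        rw [← Finset.sum_filter, nz]
        refine Finset.sum_le_sum_of_subset_of_nonneg ?_ (fun _ _ _ => Nat.cast_nonneg _)
        intro ρ hρ
        rw [Finset.mem_filter, hZmem _ (DGS_bdd _ _)] at hρ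
        rw [hZmem _ (DGS_bdd _ _)]
        obtain ⟨⟨⟨k1, k2, k3⟩, k4⟩, k5⟩ := hρ
        refine ⟨⟨?_, k2, k3⟩, k4⟩
        have k6 : 1 - ρ.re ≤ α := by
          rw [hα]
          refine le_min ?_ (by linarith)
          rw [le_div_iff₀ hℓ0]
          exact k5
        linarith
      refine h3.trans ?_
      refine Finset.sum_le_sum_of_subset_of_nonneg ?_ ?_
      · intro χ hχ
        rw [GC, Finset.mem_filter] at hχ
        rw [PC, Finset.mem_filter]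
        exact ⟨hχ.1, hχ.2.1⟩
      · intro χ _ _
        unfold nz
        exact Finset.sum_nonneg fun _ _ => Nat.cast_nonneg _
    refine h2.trans (h1.trans ?_)
    refine mul_le_mul_of_nonneg_left (Real.exp_le_exp.2 ?_) hC.le
    exact mul_le_mul_of_nonneg_left hαj hC'.le
  refine hsum1.trans ?_
  have hsum2 : ∑ j ∈ Finset.range (J + 1), Real.exp (-(4 * κ * c)) * Real.exp (-(4 * κ * j)) *
        ∑ q ∈ Finset.Icc 2 M, ∑ χ ∈ GC c₀ q, ∑ ρ ∈ ZS χ (bx (1 / 8) T),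
          (if (1 - ρ.re) * ℓ ≤ j + 1 then (mz χ ρ : ℝ) else 0) ≤
      ∑ j ∈ Finset.range (J + 1), Real.exp (-(4 * κ * c)) * (C * Real.exp C') * (1 / 2 : ℝ) ^ j := by
    refine Finset.sum_le_sum fun j hj => ?_
    refine (mul_le_mul_of_nonneg_left (hin j hj) (by positivity)).trans ?_
    have h1 : Real.exp (-(4 * κ * j)) * Real.exp (C' * (j + 1)) ≤ Real.exp C' * (1 / 2 : ℝ) ^ j := by
      have h2 : Real.exp (-(4 * κ * j)) * Real.exp (C' * (j + 1)) = Real.exp C' * Real.exp ((C' - 4 * κ) * j) := by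
        rw [← Real.exp_add, ← Real.exp_add]
        congr 1
        ring
      rw [h2]
      refine mul_le_mul_of_nonneg_left ?_ (Real.exp_pos _).le
      have h3 : Real.exp ((C' - 4 * κ) * j) ≤ Real.exp (-1 * j) := by
        refine Real.exp_le_exp.2 (mul_le_mul_of_nonneg_right ?_ (Nat.cast_nonneg j))
        linarith
      refine h3.trans ?_
      have h4 : Real.exp (-1 * j) = Real.exp (-1) ^ j := by
        rw [← Real.exp_nat_mul]
        congr 1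
        ring
      rw [h4]
      refine pow_le_pow_left₀ (Real.exp_pos _).le ?_ j
      rw [Real.exp_neg, one_div]
      refine inv_anti₀ (by norm_num) ?_
      have := Real.add_one_le_exp (1 : ℝ)
      linarith
    calc Real.exp (-(4 * κ * c)) * Real.exp (-(4 * κ * j)) * (C * Real.exp (C' * (j + 1)))
        = Real.exp (-(4 * κ * c)) * C * (Real.exp (-(4 * κ * j)) * Real.exp (C' * (j + 1))) := by ring
      _ ≤ Real.exp (-(4 * κ * c)) * C * (Real.exp C' * (1 / 2 : ℝ) ^ j) :=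
          mul_le_mul_of_nonneg_left h1 (by positivity)
      _ = _ := by ring
  refine hsum2.trans ?_
  rw [← Finset.mul_sum]
  have hgeo := sum_geometric_two_le (J + 1)
  have hlast : Real.exp (-(4 * κ * c)) * (C * Real.exp C') * 2 ≤ η := by
    have h1 : Real.log (2 * C * Real.exp C' / η) ≤ 4 * κ * c := by
      rw [div_le_iff₀ (by positivity)] at hκ3
      linarith
    have h2 : 2 * C * Real.exp C' / η ≤ Real.exp (4 * κ * c) := by
      rw [← Real.log_le_iff_le_exp (by positivity)]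
      exact h1
    rw [div_le_iff₀ hη] at h2
    rw [Real.exp_neg]
    have h3 : 0 < Real.exp (4 * κ * c) := Real.exp_pos _
    have h4 : (Real.exp (4 * κ * c))⁻¹ * (C * Real.exp C') * 2 = (2 * C * Real.exp C') / Real.exp (4 * κ * c) := by
      field_simp
    rw [h4, div_le_iff₀ h3]
    linarith
  refine le_trans ?_ hlast
  refine mul_le_mul_of_nonneg_left ?_ (by positivity)
  exact hgeo

end Pool.Agent.TWG
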