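import Pool.Agent.helper40.TW.SpecG

/-!
# Project TW, block G: FWB, the weight
-/

set_option autoImplicit false

open Complex MeasureTheory Metric
open scoped ComplexConjugate ArithmeticFunction.vonMangoldt

namespace Pool.Agent.TWG

open Pool.Agent.helper6.LD (wt)
open Pool.Agent.helper85.BVP (ex)
open Pool.Agent.TW (Win Pw)

theorem FWB_fac (n : ℕ) (hn : 0 < n) :
    (n.factorial : ℝ) ≤ Real.exp 1 * √n * (n / Real.exp 1) ^ n := by
  obtain ⟨k, rfl⟩ : ∃ k, n = k + 1 := ⟨n - 1, by omega⟩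
  have h1 : Stirling.stirlingSeq (k + 1) ≤ Real.exp 1 / √2 := by
    rw [← Stirling.stirlingSeq_one]
    exact Stirling.stirlingSeq'_antitone (Nat.zero_le k)
  unfold Stirling.stirlingSeq at h1
  have h2 : (0 : ℝ) < √(2 * ((k + 1 : ℕ) : ℝ)) * (((k + 1 : ℕ) : ℝ) / Real.exp 1) ^ (k + 1) := by
    positivity
  rw [div_le_iff₀ h2] at h1
  refine h1.trans (le_of_eq ?_)
  rw [Real.sqrt_mul (by norm_num)]
  have h3 : (√2 : ℝ) ≠ 0 := by positivity
  field_simp

theorem FWB_tri (h x : ℝ) (hh : 0 < h) : 0 ≤ tri h x ∧ tri h x ≤ 1 ∧ (tri h x ≠ 0 → |x| < h) ∧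
    (|x| ≤ h / 2 → 1 / 2 ≤ tri h x) := by
  unfold tri
  have hx : 0 ≤ |x| / h := div_nonneg (abs_nonneg x) hh.le
  refine ⟨le_max_left _ _, max_le (by norm_num) (by linarith), ?_, ?_⟩
  · intro h1
    by_contra h2
    push Not at h2
    apply h1
    rw [max_eq_left]
    have : 1 ≤ |x| / h := by
      rw [le_div_iff₀ hh]
      linarith
    linarith
  · intro h1
    refine le_trans ?_ (le_max_right _ _)
    have : |x| / h ≤ 1 / 2 := by
      rw [div_le_iff₀ hh]
      linarith
    linarith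

theorem FWB_pow (t : ℝ) (ht : 0 ≤ t) (K : ℕ) : t ^ K * Real.exp (K * (1 - t)) ≤ 1 := by
  rw [Real.exp_nat_mul, ← mul_pow]
  refine pow_le_one₀ (by positivity) ?_
  have h1 := Real.add_one_le_exp (t - 1)
  have h2 : Real.exp (t - 1) * Real.exp (1 - t) = 1 := by
    rw [← Real.exp_add]
    simp
  calc t * Real.exp (1 - t) ≤ Real.exp (t - 1) * Real.exp (1 - t) := by
        refine mul_le_mul_of_nonneg_right (by linarith) (Real.exp_pos _).le
    _ = 1 := h2

/-- lower bound of the power near the maximum -/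
theorem FWB_low (K : ℕ) (hK : 16 ≤ K) (x : ℝ) (hx : |x| ≤ 2) :
    Real.exp (-1) ≤ (1 + x / K) ^ K * Real.exp (-x) := by
  have hK0 : (16 : ℝ) ≤ K := by exact_mod_cast hK
  have hKp : (0 : ℝ) < K := by linarith
  obtain ⟨y, hy⟩ : ∃ y : ℝ, y = x / K := ⟨_, rfl⟩
  have hx' := abs_le.1 hx
  have hxy : x = y * K := by rw [hy]; field_simp
  have hy1 : |y| ≤ 1 / 8 := by
    rw [hy, abs_div, abs_of_pos hKp, div_le_iff₀ hKp]
    linarith
  have hy' := abs_le.1 hy1
  have hpos : 0 < 1 + y := by linarith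
  have h1 : y - 8 / 7 * y ^ 2 ≤ Real.log (1 + y) := by
    refine le_trans ?_ (Real.one_sub_inv_le_log_of_pos hpos)
    have h2 : 1 - (1 + y)⁻¹ = y - y ^ 2 / (1 + y) := by
      field_simp
      ring
    rw [h2]
    have h3 : y ^ 2 / (1 + y) ≤ 8 / 7 * y ^ 2 := by
      rw [div_le_iff₀ hpos]
      nlinarith [sq_nonneg y]
    linarith
  rw [← hy]
  have h4 : (1 + y) ^ K = Real.exp (K * Real.log (1 + y)) := by
    rw [Real.exp_nat_mul, Real.exp_log hpos]
  rw [h4, ← Real.exp_add]
  refine Real.exp_le_exp.2 ?_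
  have h5 : (K : ℝ) * (y - 8 / 7 * y ^ 2) ≤ K * Real.log (1 + y) := mul_le_mul_of_nonneg_left h1 hKp.le
  have h6 : (K : ℝ) * y ^ 2 ≤ 1 / 4 := by
    have h7 : (K : ℝ) * y ^ 2 * K = x ^ 2 := by rw [hxy]; ring
    have h8 : x ^ 2 ≤ 4 := by nlinarith
    have h9 : 0 ≤ (K : ℝ) * y ^ 2 := by positivity
    nlinarith
  have h10 : (K : ℝ) * (y - 8 / 7 * y ^ 2) = x - 8 / 7 * (K * y ^ 2) := by rw [hxy]; ring
  linarith

theorem FWB : FWB_stmt := by
  refine ⟨3, by norm_num, ?_⟩
  intro K h u₀ hK hh hh1 hu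
  have hK0 : (16 : ℝ) ≤ K := by exact_mod_cast hK
  have hKp : (0 : ℝ) < K := by linarith
  have hcomb : ∀ n : ℕ, (Real.log n / (16 * K)) ^ K * Real.exp (K - Real.log n / 16) =
      (Real.log n / (16 * K)) ^ K * Real.exp (K * (1 - Real.log n / (16 * K))) := by
    intro n
    congr 2
    field_simp
  refine ⟨?_, ?_, ?_, ?_⟩
  · intro n hn
    have hn0 : (0 : ℝ) < n := by exact_mod_cast hn
    have hlog : 0 ≤ Real.log n := Real.log_nonneg (by exact_mod_cast hn)
    obtain ⟨t1, t2, t3, -⟩ := FWB_tri h (Real.log n - u₀) hh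
    have hp : 0 ≤ (Real.log n / (16 * K)) ^ K * Real.exp (K - Real.log n / 16) := by positivity
    have hp1 : (Real.log n / (16 * K)) ^ K * Real.exp (K - Real.log n / 16) ≤ 1 := by
      rw [hcomb]
      exact FWB_pow _ (by positivity) K
    have hf : fw K h u₀ n = Real.exp (u₀ - h) / n *
        ((Real.log n / (16 * K)) ^ K * Real.exp (K - Real.log n / 16)) * tri h (Real.log n - u₀) := by
      unfold fw
      ring
    refine ⟨?_, ?_⟩
    · rw [hf]
      positivity
    · by_cases h0 : tri h (Real.log n - u₀) = 0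
      · rw [hf, h0, mul_zero]
        norm_num
      · have h1 := abs_lt.1 (t3 h0)
        have h2 : Real.exp (u₀ - h) / n ≤ 1 := by
          rw [div_le_iff₀ hn0, one_mul, ← Real.le_log_iff_exp_le hn0]
          linarith
        rw [hf]
        calc Real.exp (u₀ - h) / n * ((Real.log n / (16 * K)) ^ K * Real.exp (K - Real.log n / 16)) *
              tri h (Real.log n - u₀) ≤ 1 * 1 * 1 := by
              gcongr
          _ = 1 := by norm_num
  · intro n hne
    have h0 : tri h (Real.log n - u₀) ≠ 0 := by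
      intro h0
      apply hne
      unfold fw
      rw [h0, mul_zero]
    have h1 := abs_lt.1 ((FWB_tri h (Real.log n - u₀) hh).2.2.1 h0)
    constructor <;> linarith
  · refine ⟨Real.exp (u₀ - h) * Real.exp K * K.factorial / (16 * K) ^ K, by positivity, ?_, ?_⟩
    · have h1 : Real.exp (u₀ - h) ≤ Real.exp u₀ := Real.exp_le_exp.2 (by linarith)
      have h2 : Real.exp K * K.factorial / (K : ℝ) ^ K ≤ 3 * √((K : ℝ) + 1) := by
        rw [div_le_iff₀ (by positivity)]
        have h3 := FWB_fac K (by omega)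
        have h4 : (K / Real.exp 1) ^ K = (K : ℝ) ^ K / Real.exp K := by
          rw [div_pow, ← Real.exp_nat_mul, mul_one]
        rw [h4] at h3
        have h5 : √(K : ℝ) ≤ √((K : ℝ) + 1) := Real.sqrt_le_sqrt (by linarith)
        have h6 : Real.exp 1 ≤ 3 := by linarith [Real.exp_one_lt_d9]
        calc Real.exp K * K.factorial ≤ Real.exp K * (Real.exp 1 * √(K : ℝ) * ((K : ℝ) ^ K / Real.exp K)) :=
              mul_le_mul_of_nonneg_left h3 (Real.exp_pos _).le
          _ = Real.exp 1 * √(K : ℝ) * (K : ℝ) ^ K := by field_simp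
          _ ≤ 3 * √((K : ℝ) + 1) * (K : ℝ) ^ K := by gcongr
      calc Real.exp (u₀ - h) * Real.exp K * K.factorial / (16 * K) ^ K
          = Real.exp (u₀ - h) * (Real.exp K * K.factorial / (K : ℝ) ^ K) / 16 ^ K := by
            rw [mul_pow]
            field_simp
        _ ≤ Real.exp u₀ * (3 * √((K : ℝ) + 1)) / 16 ^ K := by gcongr
        _ = 3 * Real.exp u₀ * √((K : ℝ) + 1) / 16 ^ K := by ring
    · intro p hp
      have hp0 : (0 : ℝ) < p := by exact_mod_cast hp.pos
      have h1 : wt (1 + 1 / 16) (K + 1) p =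
          Real.log p * Real.log p ^ K / K.factorial * ((p : ℝ)⁻¹ * Real.exp (-(Real.log p / 16))) := by
        unfold wt
        rw [Nat.add_sub_cancel, ArithmeticFunction.vonMangoldt_apply_prime hp]
        congr 1
        rw [Real.rpow_def_of_pos hp0, show Real.log p * -(1 + 1 / 16) = -Real.log p + -(Real.log p / 16) by ring,
          Real.exp_add, Real.exp_neg, Real.exp_log hp0]
      rw [h1]
      unfold fw
      rw [sub_eq_add_neg (K : ℝ), Real.exp_add, div_pow]
      field_simp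
  · intro hKu n hn hnu
    have hn0 : (0 : ℝ) < n := by exact_mod_cast hn
    have hlog : 0 ≤ Real.log n := Real.log_nonneg (by exact_mod_cast hn)
    have t4 := (FWB_tri h (Real.log n - u₀) hh).2.2.2 hnu
    have hb := abs_le.1 hnu
    have hc := abs_le.1 hKu
    obtain ⟨x, hx⟩ : ∃ x : ℝ, x = Real.log n / 16 - K := ⟨_, rfl⟩
    have hx2 : |x| ≤ 2 := by
      rw [hx, abs_le]
      constructor <;> linarith
    have h1 := FWB_low K hK x hx2
    have h2 : (Real.log n / (16 * K)) ^ K * Real.exp (K - Real.log n / 16) = (1 + x / K) ^ K * Real.exp (-x) := by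
      have h3 : 1 + x / K = Real.log n / (16 * K) := by
        rw [hx]
        field_simp
        ring
      rw [h3, hx]
      congr 2
      ring
    have h4 : Real.exp (-(3 / 2)) ≤ Real.exp (u₀ - h) / n := by
      rw [le_div_iff₀ hn0]
      calc Real.exp (-(3 / 2)) * n = Real.exp (-(3 / 2)) * Real.exp (Real.log n) := by rw [Real.exp_log hn0]
        _ = Real.exp (-(3 / 2) + Real.log n) := by rw [Real.exp_add]
        _ ≤ Real.exp (u₀ - h) := Real.exp_le_exp.2 (by linarith)
    have hf : fw K h u₀ n = Real.exp (u₀ - h) / n *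
        ((Real.log n / (16 * K)) ^ K * Real.exp (K - Real.log n / 16)) * tri h (Real.log n - u₀) := by
      unfold fw
      ring
    rw [hf, h2]
    have h5 : 1 / 48 ≤ Real.exp (-(3 / 2)) * Real.exp (-1) * (1 / 2) := by
      rw [← Real.exp_add]
      have h6 : Real.exp (-(3 / 2) + -1) = (Real.exp (5 / 2))⁻¹ := by
        rw [← Real.exp_neg]
        congr 1
        norm_num
      rw [h6]
      have h7 : Real.exp (5 / 2) ≤ 24 := by
        have h8 : Real.exp (5 / 2) ^ 2 ≤ 24 ^ 2 := by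
          rw [← Real.exp_nat_mul]
          have h9 : ((2 : ℕ) : ℝ) * (5 / 2) = ((5 : ℕ) : ℝ) * 1 := by norm_num
          rw [h9, Real.exp_nat_mul]
          calc Real.exp 1 ^ 5 ≤ 2.7182818286 ^ 5 := by
                gcongr
                exact Real.exp_one_lt_d9.le
            _ ≤ 24 ^ 2 := by norm_num
        exact le_of_sq_le_sq h8 (by norm_num)
      have h10 : (24 : ℝ)⁻¹ ≤ (Real.exp (5 / 2))⁻¹ := inv_anti₀ (Real.exp_pos _) h7
      linarith
    have hnn : 0 ≤ (1 + x / K) ^ K * Real.exp (-x) := (Real.exp_pos (-1)).le.trans h1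
    refine h5.trans ?_
    gcongr

end Pool.Agent.TWG
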