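import Pool.Agent.helper40.TW.SpecG

/-!
# Project TW, block G: HLS, the hybrid sifted large sieve
-/

set_option autoImplicit false

open Complex MeasureTheory Metric
open scoped ComplexConjugate ArithmeticFunction.vonMangoldt

namespace Pool.Agent.TWG

open Pool.Agent.helper6.LD (wt)
open Pool.Agent.helper85.BVP (ex)
open Pool.Agent.TW (Win Pw)

/-- exponential inequalities -/
theorem HLS_exp (h : ℝ) (h0 : 0 < h) (h1 : h ≤ 1) :
    Real.exp (h / 2) ≤ 2 ∧ Real.exp (h / 2) - Real.exp (-(h / 2)) ≤ 2 * h := by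
  have a1 := Real.abs_exp_sub_one_sub_id_le (x := h / 2) (by rw [abs_of_pos (by linarith)]; linarith)
  have a2 := (abs_le.1 a1).2
  have a3 := Real.add_one_le_exp (-(h / 2))
  constructor <;> nlinarith

open Classical in
/-- the bound for fixed `u` -/
theorem HLS_pt (hSLS : SLS_stmt) (M : ℕ) (h u : ℝ) (S : Finset ℕ) (c : ℕ → ℂ) (hM : 2 ≤ M) (h0 : 0 < h) (h1 : h ≤ 1)
    (hS : ∀ n ∈ S, 0 < n ∧ ∀ p : ℕ, p.Prime → p ≤ M ^ 2 → ¬ p ∣ n) (hSu : ∀ n ∈ S, |Real.log n - u| ≤ h / 2) :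
    ∑ q ∈ Finset.Icc 1 M, ∑ χ ∈ PC q, ‖∑ n ∈ S, c n * χ n‖ ^ 2 ≤
      ∑ n ∈ S, 5 / Real.log M * ‖c n‖ ^ 2 * (4 * h * n + 1 + (M : ℝ) ^ 4) := by
  have hlog : 0 < Real.log M := Real.log_pos (by exact_mod_cast hM)
  obtain ⟨e1, e2⟩ := HLS_exp h h0 h1
  obtain ⟨L, hL⟩ : ∃ L : ℕ, L = ⌈Real.exp (u - h / 2)⌉₊ - 1 := ⟨_, rfl⟩
  obtain ⟨H, hH⟩ : ∃ H : ℕ, H = ⌊Real.exp (u + h / 2)⌋₊ - L := ⟨_, rfl⟩
  have hc1 : 1 ≤ ⌈Real.exp (u - h / 2)⌉₊ := Nat.one_le_iff_ne_zero.2 (by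
    rw [Ne, Nat.ceil_eq_zero]
    exact not_le.2 (Real.exp_pos _))
  have hLr : Real.exp (u - h / 2) - 1 ≤ L := by
    have a1 := Nat.le_ceil (Real.exp (u - h / 2))
    have a2 : (L : ℝ) + 1 = ⌈Real.exp (u - h / 2)⌉₊ := by
      rw [hL]
      have : ⌈Real.exp (u - h / 2)⌉₊ - 1 + 1 = ⌈Real.exp (u - h / 2)⌉₊ := Nat.sub_add_cancel hc1
      exact_mod_cast this
    linarith
  have hHr : (H : ℝ) ≤ 2 * h * Real.exp u + 1 := by
    rcases le_or_gt L ⌊Real.exp (u + h / 2)⌋₊ with hle | hlt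
    · have a1 : (H : ℝ) = ⌊Real.exp (u + h / 2)⌋₊ - L := by
        rw [hH, Nat.cast_sub hle]
      have a2 := Nat.floor_le (Real.exp_pos (u + h / 2)).le
      have a3 : Real.exp (u + h / 2) - Real.exp (u - h / 2) = Real.exp u * (Real.exp (h / 2) - Real.exp (-(h / 2))) := by
        rw [Real.exp_add, sub_eq_add_neg u, Real.exp_add]
        ring
      have a4 : Real.exp u * (Real.exp (h / 2) - Real.exp (-(h / 2))) ≤ Real.exp u * (2 * h) :=
        mul_le_mul_of_nonneg_left e2 (Real.exp_pos u).le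
      linarith
    · have a1 : H = 0 := by
        rw [hH]
        omega
      rw [a1]
      have := Real.exp_pos u
      push_cast
      positivity
  have hsub : S ⊆ Finset.Ioc L (L + H) := by
    intro n hn
    have hn0 : (0 : ℝ) < n := by exact_mod_cast (hS n hn).1
    have hab := abs_le.1 (hSu n hn)
    have b1 : Real.exp (u - h / 2) ≤ n := by
      rw [← Real.le_log_iff_exp_le hn0]
      linarith
    have b2 : (n : ℝ) ≤ Real.exp (u + h / 2) := by
      rw [← Real.log_le_iff_le_exp hn0]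
      linarith
    have b3 : ⌈Real.exp (u - h / 2)⌉₊ ≤ n := Nat.ceil_le.2 b1
    have b4 : n ≤ ⌊Real.exp (u + h / 2)⌋₊ := Nat.le_floor b2
    rw [Finset.mem_Ioc]
    omega
  have key := hSLS M L H (fun n => if n ∈ S then c n else 0) hM (by
    intro n _ hne
    have hnS : n ∈ S := by
      by_contra h
      exact hne (if_neg h)
    exact (hS n hnS).2)
  have eq1 : ∀ (q : ℕ) (χ : DirichletCharacter ℂ q), ∑ n ∈ Finset.Ioc L (L + H), (if n ∈ S then c n else 0) * χ n =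
      ∑ n ∈ S, c n * χ n := by
    intro q χ
    rw [← Finset.sum_subset hsub (fun n _ hn => by rw [if_neg hn, zero_mul])]
    exact Finset.sum_congr rfl fun n hn => by rw [if_pos hn]
  have eq2 : ∑ n ∈ Finset.Ioc L (L + H), ‖(if n ∈ S then c n else 0 : ℂ)‖ ^ 2 = ∑ n ∈ S, ‖c n‖ ^ 2 := by
    rw [← Finset.sum_subset hsub (fun n _ hn => by rw [if_neg hn, norm_zero]; norm_num)]
    exact Finset.sum_congr rfl fun n hn => by rw [if_pos hn]
  simp only [eq1] at key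
  rw [eq2] at key
  refine key.trans ?_
  rw [Finset.mul_sum]
  refine Finset.sum_le_sum fun n hn => ?_
  have hn0 : (0 : ℝ) < n := by exact_mod_cast (hS n hn).1
  have hab := abs_le.1 (hSu n hn)
  have c1 : Real.exp u ≤ 2 * n := by
    have d1 : u ≤ Real.log n + h / 2 := by linarith
    calc Real.exp u ≤ Real.exp (Real.log n + h / 2) := Real.exp_le_exp.2 d1
      _ = n * Real.exp (h / 2) := by rw [Real.exp_add, Real.exp_log hn0]
      _ ≤ n * 2 := mul_le_mul_of_nonneg_left e1 hn0.le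
      _ = 2 * n := by ring
  have c2 : (H : ℝ) + (M : ℝ) ^ 4 ≤ 4 * h * n + 1 + (M : ℝ) ^ 4 := by
    have : 2 * h * Real.exp u ≤ 2 * h * (2 * n) := mul_le_mul_of_nonneg_left c1 (by positivity)
    linarith
  have c3 : 5 * ((H : ℝ) + (M : ℝ) ^ 4) / Real.log M * ‖c n‖ ^ 2 =
      5 / Real.log M * ‖c n‖ ^ 2 * ((H : ℝ) + (M : ℝ) ^ 4) := by ring
  rw [c3]
  exact mul_le_mul_of_nonneg_left c2 (by positivity)

open Classical in
theorem HLS (hSLS : SLS_stmt) (hGLM : GLM_stmt) : HLS_stmt := by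
  refine ⟨80 * Real.pi, by positivity, ?_⟩
  intro M T S c hM hT hS
  have hlog : 0 < Real.log M := Real.log_pos (by exact_mod_cast hM)
  have hT0 : 0 < T := by linarith
  obtain ⟨h, hh⟩ : ∃ h : ℝ, h = 1 / T := ⟨_, rfl⟩
  have h0 : 0 < h := by rw [hh]; positivity
  have h1 : h ≤ 1 := by
    rw [hh, div_le_iff₀ hT0]
    linarith
  have hTh : T * h = 1 := by rw [hh]; field_simp
  have hh2 : 1 / (2 * T) = h / 2 := by rw [hh]; field_simp
  -- the function of `u`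
  obtain ⟨G, hG⟩ : ∃ G : (q : ℕ) → DirichletCharacter ℂ q → ℝ → ℝ, G = fun q χ u =>
      ‖∑ n ∈ S.filter (fun n : ℕ => |Real.log n - u| ≤ 1 / (2 * T)), c n * χ n‖ ^ 2 := ⟨_, rfl⟩
  have hGint : ∀ (q : ℕ) (χ : DirichletCharacter ℂ q), Integrable (G q χ) := by
    intro q χ
    rw [hG]
    exact (hGLM T S (fun n => c n * χ n) hT (fun n hn => (hS n hn).1)).1
  have step1 : ∑ q ∈ Finset.Icc 1 M, ∑ χ ∈ PC q, ∫ v in (-T)..T, ‖∑ n ∈ S, c n * χ n * (n : ℂ) ^ (-(v * I))‖ ^ 2 ≤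
      4 * Real.pi * T ^ 2 * ∫ u : ℝ, ∑ q ∈ Finset.Icc 1 M, ∑ χ ∈ PC q, G q χ u := by
    rw [integral_finset_sum _ (fun q _ => integrable_finset_sum _ (fun χ _ => hGint q χ)), Finset.mul_sum]
    refine Finset.sum_le_sum fun q _ => ?_
    rw [integral_finset_sum _ (fun χ _ => hGint q χ), Finset.mul_sum]
    refine Finset.sum_le_sum fun χ _ => ?_
    rw [hG]
    exact (hGLM T S (fun n => c n * χ n) hT (fun n hn => (hS n hn).1)).2
  -- the majorant
  obtain ⟨B, hB⟩ : ∃ B : ℕ → ℝ, B = fun n => 5 / Real.log M * ‖c n‖ ^ 2 * (4 * h * n + 1 + (M : ℝ) ^ 4) := ⟨_, rfl⟩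
  have hBint : ∀ n : ℕ, Integrable (Set.indicator (Set.Icc (Real.log n - h / 2) (Real.log n + h / 2)) (fun _ : ℝ => B n)) := by
    intro n
    rw [integrable_indicator_iff measurableSet_Icc]
    exact integrableOn_const (by rw [Real.volume_Icc]; exact ENNReal.ofReal_ne_top)
  have hBval : ∀ n : ℕ, ∫ u : ℝ, Set.indicator (Set.Icc (Real.log n - h / 2) (Real.log n + h / 2)) (fun _ : ℝ => B n) u = h * B n := by
    intro n
    rw [integral_indicator measurableSet_Icc, setIntegral_const, Real.volume_real_Icc_of_le (by linarith), smul_eq_mul]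
    congr 1
    ring
  have step2 : ∀ u : ℝ, ∑ q ∈ Finset.Icc 1 M, ∑ χ ∈ PC q, G q χ u ≤
      ∑ n ∈ S, Set.indicator (Set.Icc (Real.log n - h / 2) (Real.log n + h / 2)) (fun _ : ℝ => B n) u := by
    intro u
    have a1 := HLS_pt hSLS M h u (S.filter (fun n : ℕ => |Real.log n - u| ≤ 1 / (2 * T))) c hM h0 h1
      (fun n hn => hS n (Finset.mem_filter.1 hn).1) (fun n hn => by
        have := (Finset.mem_filter.1 hn).2
        rw [hh2] at this
        exact this)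
    rw [hG]
    refine a1.trans (le_of_eq ?_)
    rw [Finset.sum_filter]
    refine Finset.sum_congr rfl fun n _ => ?_
    rw [Set.indicator_apply]
    have a2 : (|Real.log n - u| ≤ 1 / (2 * T)) ↔ u ∈ Set.Icc (Real.log n - h / 2) (Real.log n + h / 2) := by
      rw [hh2, abs_le, Set.mem_Icc]
      constructor
      · rintro ⟨b1, b2⟩
        exact ⟨by linarith, by linarith⟩
      · rintro ⟨b1, b2⟩
        exact ⟨by linarith, by linarith⟩
    by_cases hc : |Real.log n - u| ≤ 1 / (2 * T)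
    · rw [if_pos hc, if_pos (a2.1 hc), hB]
    · rw [if_neg hc, if_neg (fun h => hc (a2.2 h))]
  have step3 : ∫ u : ℝ, ∑ q ∈ Finset.Icc 1 M, ∑ χ ∈ PC q, G q χ u ≤ ∑ n ∈ S, h * B n := by
    have a1 : ∫ u : ℝ, ∑ n ∈ S, Set.indicator (Set.Icc (Real.log n - h / 2) (Real.log n + h / 2)) (fun _ : ℝ => B n) u =
        ∑ n ∈ S, h * B n := by
      rw [integral_finset_sum _ (fun n _ => hBint n)]
      exact Finset.sum_congr rfl fun n _ => hBval n
    rw [← a1]
    exact integral_mono (integrable_finset_sum _ (fun q _ => integrable_finset_sum _ (fun χ _ => hGint q χ)))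
      (integrable_finset_sum _ (fun n _ => hBint n)) step2
  refine step1.trans ((mul_le_mul_of_nonneg_left step3 (by positivity)).trans ?_)
  rw [Finset.mul_sum, Finset.mul_sum]
  refine Finset.sum_le_sum fun n _ => ?_
  rw [hB]
  have hM1 : (1 : ℝ) ≤ (M : ℝ) ^ 4 := one_le_pow₀ (by exact_mod_cast (by omega : 1 ≤ M))
  have hn0 : (0 : ℝ) ≤ n := Nat.cast_nonneg n
  have e1 : 4 * Real.pi * T ^ 2 * (h * (5 / Real.log M * ‖c n‖ ^ 2 * (4 * h * n + 1 + (M : ℝ) ^ 4))) =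
      20 * Real.pi / Real.log M * ‖c n‖ ^ 2 * ((T * h) * (4 * (T * h) * n + T * (1 + (M : ℝ) ^ 4))) := by ring
  rw [e1, hTh]
  have e2 : 80 * Real.pi / Real.log M * (‖c n‖ ^ 2 * (n + (M : ℝ) ^ 4 * T)) =
      20 * Real.pi / Real.log M * ‖c n‖ ^ 2 * (4 * (n + (M : ℝ) ^ 4 * T)) := by ring
  rw [e2]
  refine mul_le_mul_of_nonneg_left ?_ (by positivity)
  nlinarith

end Pool.Agent.TWG
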