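import Pool.Agent.helper40.TW.SpecG

/-!
# Project TW, block G: INV, Fourier inversion
-/

set_option autoImplicit false

open Complex MeasureTheory Metric
open scoped ComplexConjugate ArithmeticFunction.vonMangoldt

namespace Pool.Agent.TWG

open Pool.Agent.helper6.LD (wt)
open Pool.Agent.helper85.BVP (ex)
open Pool.Agent.TW (Win Pw)

theorem INV_even (h v : ℝ) : tau h (-v) = tau h v := by
  unfold tau
  have h1 : (-v = 0) ↔ (v = 0) := neg_eq_zero
  have h2 : h * -v = -(h * v) := by ring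
  by_cases hv : v = 0
  · rw [if_pos hv, if_pos (h1.2 hv)]
  · rw [if_neg hv, if_neg (fun h => hv (h1.1 h)), h2, Real.cos_neg, neg_sq]

/-- the characters `n^(iv)` -/
theorem INV_exp (n : ℕ) (hn : n ≠ 0) (v u₀ : ℝ) :
    Complex.exp (((v * (Real.log n - u₀) : ℝ) : ℂ) * I) =
      (n : ℂ) ^ (-(((-v : ℝ) : ℂ) * I)) * Complex.exp (((-(v * u₀) : ℝ) : ℂ) * I) := by
  have hn0 : (n : ℂ) ≠ 0 := by exact_mod_cast hn
  rw [Complex.cpow_def_of_ne_zero hn0, ← Complex.exp_add, ← Complex.natCast_log]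
  congr 1
  push_cast
  ring

theorem INV (hSER : SER_stmt) (hTRI : TRI_stmt) : INV_stmt := by
  intro q χ k r h u₀ hq hk hr hh
  obtain ⟨hws, hw0, hsum, hbd, hcont, -⟩ := hSER q χ k r hq hk hr
  obtain ⟨htc, hti, hti2, ht0, -, hinv⟩ := hTRI h hh
  obtain ⟨W, hW⟩ : ∃ W : ℝ, W = ∑' n, wt (1 + r) k n := ⟨_, rfl⟩
  have hint : Integrable (fun v : ℝ => tau h v * ‖PP χ k r v‖) := by
    refine Integrable.mono' (hti.mul_const W) ((htc.mul hcont.norm).aestronglyMeasurable)
      (Filter.Eventually.of_forall fun v => ?_)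
    rw [Real.norm_of_nonneg (mul_nonneg (ht0 v).1 (norm_nonneg _)), hW]
    exact mul_le_mul_of_nonneg_left (hbd v) (ht0 v).1
  refine ⟨hint, ?_⟩
  -- the terms
  obtain ⟨F, hF⟩ : ∃ F : ℕ → ℝ → ℂ, F = fun n v => (wt (1 + r) k n : ℂ) * χ n *
      ((tau h v : ℂ) * Complex.exp (((v * (Real.log n - u₀) : ℝ) : ℂ) * I)) := ⟨_, rfl⟩
  have hFn : ∀ n v, ‖F n v‖ ≤ wt (1 + r) k n * tau h v := by
    intro n v
    rw [hF]
    simp only
    rw [norm_mul, norm_mul, norm_mul, Complex.norm_real, Complex.norm_real, Complex.norm_exp_ofReal_mul_I, mul_one,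
      Real.norm_of_nonneg (hw0 n), Real.norm_of_nonneg (ht0 v).1]
    have h1 : ‖χ (n : ZMod q)‖ ≤ 1 := DirichletCharacter.norm_le_one χ n
    have h2 : 0 ≤ tau h v := (ht0 v).1
    have h3 := hw0 n
    calc wt (1 + r) k n * ‖χ (n : ZMod q)‖ * tau h v ≤ wt (1 + r) k n * 1 * tau h v := by gcongr
      _ = _ := by ring
  have hFc : ∀ n, Continuous (F n) := by
    intro n
    rw [hF]
    simp only
    refine continuous_const.mul ((Complex.continuous_ofReal.comp htc).mul ?_)
    fun_prop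
  have hFi : ∀ n, Integrable (F n) := by
    intro n
    refine Integrable.mono' (hti.const_mul (wt (1 + r) k n)) (hFc n).aestronglyMeasurable
      (Filter.Eventually.of_forall fun v => hFn n v)
  have hFs : Summable fun n => ∫ v, ‖F n v‖ := by
    refine Summable.of_nonneg_of_le (fun n => integral_nonneg fun v => norm_nonneg _) (fun n => ?_)
      (hws.mul_right (2 * Real.pi))
    rw [← hti2, ← integral_const_mul]
    exact integral_mono (hFi n).norm (hti.const_mul _) (fun v => hFn n v)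
  have hval : ∀ n : ℕ, (wt (1 + r) k n : ℂ) * χ n * ((tri h (Real.log n - u₀) : ℝ) : ℂ) =
      1 / (2 * Real.pi) * ∫ v, F n v := by
    intro n
    rw [hinv, hF]
    simp only
    rw [integral_const_mul]
    ring
  have hsw : ∑' n : ℕ, (wt (1 + r) k n : ℂ) * χ n * ((tri h (Real.log n - u₀) : ℝ) : ℂ) =
      1 / (2 * Real.pi) * ∫ v, ∑' n, F n v := by
    rw [tsum_congr hval, tsum_mul_left, integral_tsum_of_summable_integral_norm hFi hFs]
  have hpt : ∀ v, ∑' n, F n v = (tau h v : ℂ) * Complex.exp (((-(v * u₀) : ℝ) : ℂ) * I) * PP χ k r (-v) := by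
    intro v
    unfold PP
    rw [← tsum_mul_left]
    refine tsum_congr fun n => ?_
    rw [hF]
    simp only
    rcases eq_or_ne n 0 with hn | hn
    · have h1 : wt (1 + r) k 0 = 0 := by
        unfold wt
        simp
      rw [hn, h1]
      simp
    · rw [INV_exp n hn v u₀]
      ring
  rw [hsw, norm_mul]
  have h5 : ‖(1 / (2 * Real.pi) : ℂ)‖ = 1 / (2 * Real.pi) := by
    have : (1 / (2 * Real.pi) : ℂ) = ((1 / (2 * Real.pi) : ℝ) : ℂ) := by push_cast; rfl
    rw [this, Complex.norm_real, Real.norm_of_nonneg (by positivity)]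
  rw [h5]
  refine mul_le_mul_of_nonneg_left ?_ (by positivity)
  refine (norm_integral_le_integral_norm _).trans (le_of_eq ?_)
  have h6 : ∀ v, ‖∑' n, F n v‖ = tau h (-v) * ‖PP χ k r (-v)‖ := by
    intro v
    rw [hpt v, norm_mul, norm_mul, Complex.norm_real, Complex.norm_exp_ofReal_mul_I, mul_one,
      Real.norm_of_nonneg (ht0 v).1, INV_even]
  rw [integral_congr_ae (Filter.Eventually.of_forall h6)]
  exact integral_neg_eq_self (fun v => tau h v * ‖PP χ k r v‖) volume

end Pool.Agent.TWG
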