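import Pool.Agent.helper40.TW.SpecG

/-!
# Project TW, block G: SLS, the sifted large sieve
-/

set_option autoImplicit false

open Complex MeasureTheory Metric
open scoped ComplexConjugate ArithmeticFunction.vonMangoldt

namespace Pool.Agent.TWG

open Pool.Agent.helper6.LD (wt)
open Pool.Agent.helper85.BVP (ex)
open Pool.Agent.TW (Win Pw)

/-- the Farey sum, ordered by denominators -/
theorem SLS_farey (R : ℕ) (F : ℕ → ℕ → ℝ) :
    ∑ p ∈ Pool.Agent.helper85.MT.farey R, F p.1 p.2 =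
      ∑ m ∈ Finset.Icc 1 R, ∑ b ∈ (Finset.range m).filter (fun b => Nat.Coprime b m), F m b := by
  rw [Pool.Agent.helper85.MT.farey, Finset.sum_filter, Finset.sum_product]
  refine Finset.sum_congr rfl fun r hr => ?_
  rw [Finset.mem_Icc] at hr
  rw [← Finset.sum_filter]
  refine Finset.sum_congr ?_ (fun _ _ => rfl)
  ext b
  rw [Finset.mem_filter, Finset.mem_filter, Finset.mem_range, Finset.mem_range]
  simp only
  constructor
  · rintro ⟨_, h2, h3⟩
    exact ⟨h2, h3⟩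
  · rintro ⟨h2, h3⟩
    exact ⟨by omega, h2, h3⟩

theorem SLS (hSL1 : SL1_stmt) (hSQS : SQS_stmt) : SLS_stmt := by
  classical
  intro M L H a hM ha
  obtain ⟨S, hS⟩ : ∃ S : Finset ℕ, S = Finset.Ioc L (L + H) := ⟨_, rfl⟩
  obtain ⟨E, hE⟩ : ∃ E : ℕ → ℝ, E = fun q => ∑ χ ∈ PC q, ‖∑ n ∈ S, a n * χ n‖ ^ 2 := ⟨_, rfl⟩
  have hE0 : ∀ q, 0 ≤ E q := fun q => by
    rw [hE]
    exact Finset.sum_nonneg fun _ _ => sq_nonneg _
  obtain ⟨R, hR⟩ : ∃ R : ℕ, R = M ^ 2 := ⟨_, rfl⟩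
  have hR1 : 1 ≤ R := by rw [hR]; exact Nat.one_le_pow _ _ (by omega)
  obtain ⟨A, hA⟩ : ∃ A : ℝ, A = ∑ n ∈ S, ‖a n‖ ^ 2 := ⟨_, rfl⟩
  have hlog : 0 < Real.log M := Real.log_pos (by exact_mod_cast hM)
  have hfs := Pool.Agent.helper85.MT.farey_sieve R L H hR1 a
  rw [SLS_farey R (fun m b => ‖∑ n ∈ Finset.Ioc L (L + H), a n * ex ((n : ℝ) * ((b : ℝ) / m))‖ ^ 2), ← hS, ← hA] at hfs
  -- one modulus
  have hcop : ∀ m ∈ Finset.Icc 1 R, ∀ n ∈ S, a n ≠ 0 → Nat.Coprime n m := by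
    intro m hm n hn hne
    rw [Finset.mem_Icc] at hm
    by_contra hnc
    obtain ⟨p, hp, hpn, hpm⟩ := Nat.Prime.not_coprime_iff_dvd.1 hnc
    have h1 : p ≤ M ^ 2 := (Nat.le_of_dvd (by omega) hpm).trans (hR ▸ hm.2)
    exact ha n (by rw [← hS]; exact hn) hne p hp h1 hpn
  have h1 : ∑ m ∈ Finset.Icc 1 R, ∑ q ∈ m.divisors with (Squarefree (m / q) ∧ Nat.Coprime q (m / q)),
      (q : ℝ) / Nat.totient m * E q ≤ 5 * ((H : ℝ) + (R : ℝ) ^ 2) * A := by
    refine le_trans (Finset.sum_le_sum fun m hm => ?_) hfs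
    have h2 := hSL1 m S a (Finset.mem_Icc.1 hm).1 (hcop m hm)
    rw [hE]
    exact h2
  -- rearrange
  have h3 : ∑ q ∈ Finset.Icc 1 M, ∑ m ∈ (Finset.Icc 1 R).filter (fun m => q ∣ m ∧ Squarefree (m / q) ∧ Nat.Coprime q (m / q)),
      (q : ℝ) / Nat.totient m * E q ≤
      ∑ m ∈ Finset.Icc 1 R, ∑ q ∈ m.divisors with (Squarefree (m / q) ∧ Nat.Coprime q (m / q)),
      (q : ℝ) / Nat.totient m * E q := by
    have h4 : ∑ q ∈ Finset.Icc 1 M, ∑ m ∈ (Finset.Icc 1 R).filter (fun m => q ∣ m ∧ Squarefree (m / q) ∧ Nat.Coprime q (m / q)),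
        (q : ℝ) / Nat.totient m * E q =
        ∑ m ∈ Finset.Icc 1 R, ∑ q ∈ (Finset.Icc 1 M).filter (fun q => q ∣ m ∧ Squarefree (m / q) ∧ Nat.Coprime q (m / q)),
        (q : ℝ) / Nat.totient m * E q := by
      simp only [Finset.sum_filter]
      rw [Finset.sum_comm]
    rw [h4]
    refine Finset.sum_le_sum fun m hm => ?_
    refine Finset.sum_le_sum_of_subset_of_nonneg ?_ (fun q _ _ => mul_nonneg (by positivity) (hE0 q))
    intro q hq
    rw [Finset.mem_filter, Finset.mem_Icc] at hq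
    rw [Finset.mem_filter, Nat.mem_divisors]
    rw [Finset.mem_Icc] at hm
    exact ⟨⟨hq.2.1, by omega⟩, hq.2.2⟩
  have h5 : ∑ q ∈ Finset.Icc 1 M, Real.log M * E q ≤
      ∑ q ∈ Finset.Icc 1 M, ∑ m ∈ (Finset.Icc 1 R).filter (fun m => q ∣ m ∧ Squarefree (m / q) ∧ Nat.Coprime q (m / q)),
      (q : ℝ) / Nat.totient m * E q := by
    refine Finset.sum_le_sum fun q hq => ?_
    rw [Finset.mem_Icc] at hq
    rw [← Finset.sum_mul]
    refine mul_le_mul_of_nonneg_right ?_ (hE0 q)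
    have hq0 : 0 < q := by omega
    have hMq : M ≤ R / q := by
      rw [Nat.le_div_iff_mul_le hq0, hR, sq]
      exact Nat.mul_le_mul_left M hq.2
    have h6 := hSQS q (R / q) hq.1 (by omega)
    have h7 : Real.log M ≤ Real.log ((R / q : ℕ) : ℝ) :=
      Real.log_le_log (by exact_mod_cast (by omega : 0 < M)) (by exact_mod_cast hMq)
    refine h7.trans (h6.trans ?_)
    rw [Finset.mul_sum]
    have h8 : ∀ r ∈ (Finset.Icc 1 (R / q)).filter (fun r => Squarefree r ∧ Nat.Coprime q r),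
        (q : ℝ) / Nat.totient q * (1 / (Nat.totient r : ℝ)) = (fun m : ℕ => (q : ℝ) / Nat.totient m) (q * r) := by
      intro r hr
      rw [Finset.mem_filter] at hr
      simp only
      rw [Nat.totient_mul hr.2.2]
      push_cast
      rw [div_mul_div_comm, mul_one]
    rw [Finset.sum_congr rfl h8, ← Finset.sum_image (f := fun m : ℕ => (q : ℝ) / Nat.totient m) (g := fun r => q * r) (by
      intro x _ y _ hxy
      exact Nat.eq_of_mul_eq_mul_left hq0 hxy)]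
    refine Finset.sum_le_sum_of_subset_of_nonneg ?_ (fun m _ _ => by positivity)
    intro m hm
    rw [Finset.mem_image] at hm
    obtain ⟨r, hr, rfl⟩ := hm
    rw [Finset.mem_filter, Finset.mem_Icc] at hr
    rw [Finset.mem_filter, Finset.mem_Icc]
    have h9 : q * r ≤ R := by
      have := (Nat.le_div_iff_mul_le hq0).1 hr.1.2
      rw [mul_comm]
      exact this
    rw [Nat.mul_div_cancel_left r hq0]
    exact ⟨⟨Nat.mul_pos hq0 hr.1.1, h9⟩, dvd_mul_right q r, hr.2.1, hr.2.2⟩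
  have h6 := h5.trans (h3.trans h1)
  rw [← Finset.mul_sum] at h6
  have h7 : (R : ℝ) ^ 2 = (M : ℝ) ^ 4 := by
    rw [hR]
    push_cast
    ring
  rw [h7] at h6
  rw [← hS, ← hA]
  have h8 : ∑ q ∈ Finset.Icc 1 M, ∑ χ ∈ PC q, ‖∑ n ∈ S, a n * χ n‖ ^ 2 = ∑ q ∈ Finset.Icc 1 M, E q := by
    rw [hE]
  rw [h8]
  have h9 : 5 * ((H : ℝ) + (M : ℝ) ^ 4) / Real.log M * A = (5 * ((H : ℝ) + (M : ℝ) ^ 4) * A) / Real.log M := by ring
  rw [h9, le_div_iff₀ hlog]
  linarith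

end Pool.Agent.TWG
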